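import Pool.Agent.K3h44.SQ.Stm

/-! Brick DESC of project SQ: valuations of `y + b √a`. -/

set_option autoImplicit false

namespace Pool.Agent.K3h17.SQ

open Pool.Agent.K3h44.SQ NumberField IsDedekindDomain

theorem exists_prime {K : Type} [Field K] [NumberField K] (P : Ideal (𝓞 K)) [hP : P.IsPrime] :
    ∀ d : ℕ, d ≠ 0 → (d : 𝓞 K) ∈ P → ∃ q : ℕ, q.Prime ∧ q ∣ d ∧ (q : 𝓞 K) ∈ P := by
  intro d
  induction d using Nat.strong_induction_on with
  | _ d ih =>
    intro hd hdP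
    have h1 : d ≠ 1 := by
      rintro rfl
      apply hP.ne_top
      rw [Ideal.eq_top_iff_one]
      simpa using hdP
    have hq := Nat.minFac_prime h1
    obtain ⟨e, he⟩ := Nat.minFac_dvd d
    by_cases hqP : ((d.minFac : ℕ) : 𝓞 K) ∈ P
    · exact ⟨d.minFac, hq, Nat.minFac_dvd d, hqP⟩
    · have h2 : ((d.minFac : ℕ) : 𝓞 K) * (e : 𝓞 K) ∈ P := by
        rw [← Nat.cast_mul, ← he]
        exact hdP
      have h3 : (e : 𝓞 K) ∈ P := (hP.mem_or_mem h2).resolve_left hqP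
      have he0 : e ≠ 0 := by
        rintro rfl
        rw [mul_zero] at he
        exact hd he
      have hlt : e < d := by
        have h4 := hq.two_le
        have h5 : 0 < e := Nat.pos_of_ne_zero he0
        calc e < 2 * e := by omega
          _ ≤ d.minFac * e := Nat.mul_le_mul_right e h4
          _ = d := he.symm
      obtain ⟨q, h4, h5, h6⟩ := ih e hlt he0 h3
      exact ⟨q, h4, h5.trans ⟨d.minFac, by rw [mul_comm]; exact he⟩, h6⟩

theorem t_DESC : S_DESC := by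
  intro K _ _ s a b x y M hs hxy hx hq v hM
  have hP := v.isPrime
  obtain ⟨A, hA⟩ : ∃ A : 𝓞 K, A = (y : 𝓞 K) + b * s := ⟨_, rfl⟩
  obtain ⟨B, hB⟩ : ∃ B : 𝓞 K, B = (y : 𝓞 K) - b * s := ⟨_, rfl⟩
  have hAB : A * B = (x : 𝓞 K) ^ 3 := by
    have h1 : ((y : 𝓞 K)) ^ 2 = (x : 𝓞 K) ^ 3 + a * (b : 𝓞 K) ^ 2 := by
      exact_mod_cast congrArg (Int.cast : ℤ → 𝓞 K) hxy
    rw [hA, hB]
    linear_combination h1 - (b : 𝓞 K) ^ 2 * hs
  rw [← hA]
  have h2M : (2 : 𝓞 K) ∉ v.asIdeal := by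
    intro h
    apply hM
    rw [Nat.cast_mul]
    exact v.asIdeal.mul_mem_right _ (by exact_mod_cast h)
  have hMM : (M : 𝓞 K) ∉ v.asIdeal := by
    intro h
    apply hM
    rw [Nat.cast_mul]
    exact v.asIdeal.mul_mem_left _ h
  have hnot : A ∉ v.asIdeal ∨ B ∉ v.asIdeal := by
    by_contra hcon
    push Not at hcon
    obtain ⟨h1, h2⟩ := hcon
    have h3 : (2 : 𝓞 K) * (y : 𝓞 K) ∈ v.asIdeal := by
      have h4 := v.asIdeal.add_mem h1 h2
      have h5 : A + B = 2 * (y : 𝓞 K) := by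
        rw [hA, hB]
        ring
      rwa [h5] at h4
    have hy : (y : 𝓞 K) ∈ v.asIdeal := (hP.mem_or_mem h3).resolve_left h2M
    have hx' : (x : 𝓞 K) ∈ v.asIdeal := by
      apply hP.mem_of_pow_mem 3
      rw [← hAB]
      exact v.asIdeal.mul_mem_left _ h2
    have hg : ((Int.gcd x y : ℕ) : 𝓞 K) ∈ v.asIdeal := by
      have h4 : ((Int.gcd x y : ℕ) : 𝓞 K) = (x : 𝓞 K) * (Int.gcdA x y : 𝓞 K) +
          (y : 𝓞 K) * (Int.gcdB x y : 𝓞 K) := by
        exact_mod_cast congrArg (Int.cast : ℤ → 𝓞 K) (Int.gcd_eq_gcd_ab x y)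
      rw [h4]
      exact v.asIdeal.add_mem (v.asIdeal.mul_mem_right _ hx') (v.asIdeal.mul_mem_right _ hy)
    have hg0 : Int.gcd x y ≠ 0 := by
      rw [Ne, Int.gcd_eq_zero_iff]
      exact fun h => hx h.1
    obtain ⟨q, hq1, hq2, hq3⟩ := exists_prime v.asIdeal _ hg0 hg
    have hqx : (q : ℤ) ∣ x := (Int.natCast_dvd_natCast.2 hq2).trans (Int.gcd_dvd_left _ _)
    have hqy : (q : ℤ) ∣ y := (Int.natCast_dvd_natCast.2 hq2).trans (Int.gcd_dvd_right _ _)
    obtain ⟨e, he⟩ := hq q hq1 hqx hqy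
    apply hMM
    rw [he, Nat.cast_mul]
    exact v.asIdeal.mul_mem_right _ hq3
  have hval : ∀ z : 𝓞 K, z ∉ v.asIdeal → v.valuation K (z : K) = 1 := by
    intro z hz
    have h1 : v.valuation K (algebraMap (𝓞 K) K z) = 1 := by
      rw [HeightOneSpectrum.valuation_of_algebraMap]
      exact HeightOneSpectrum.intValuation_eq_one_iff.2 hz
    exact h1
  rcases hnot with h | h
  · refine ⟨0, ?_⟩
    rw [hval A h, mul_zero, WithZero.exp_zero]
  · have h1 := hval B h
    have h2 : v.valuation K (A : K) * v.valuation K (B : K) = v.valuation K ((x : 𝓞 K) : K) ^ 3 := by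
      rw [← map_mul, ← map_pow]
      congr 1
      have h3 := congrArg (algebraMap (𝓞 K) K) hAB
      rw [map_mul, map_pow] at h3
      exact h3
    rw [h1, mul_one] at h2
    have hx0 : v.valuation K ((x : 𝓞 K) : K) ≠ 0 := by
      rw [Ne, map_eq_zero]
      intro h3
      have h4 : (x : 𝓞 K) = 0 := by
        apply FaithfulSMul.algebraMap_injective (𝓞 K) K
        rw [map_zero]
        exact h3
      exact hx (by exact_mod_cast h4)
    refine ⟨WithZero.log (v.valuation K ((x : 𝓞 K) : K)), ?_⟩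
    rw [h2]
    have h5 := WithZero.exp_log hx0
    have h6 : (3 : ℤ) * WithZero.log (v.valuation K ((x : 𝓞 K) : K)) =
        3 • WithZero.log (v.valuation K ((x : 𝓞 K) : K)) := by simp
    rw [h6, WithZero.exp_nsmul, h5]

end Pool.Agent.K3h17.SQ
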